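import Mathlib
import Pool.Agent.Helper35.PX.Goals
import Pool.Agent.Helper35.PP.Numeric

/-!
MP_bec853_al: numerical bounds for languages with a forbidden rectangle.
-/

namespace Pool.Agent.Helper88.PX

open FreeGroup Pool.Agent.Helper35.PP Pool.Agent.Helper35.PX
open scoped ENNReal

/-- the function of the star condition -/
noncomputable def F (N z T x : ℝ) : ℝ :=
  T * (1 - x * x * z ^ 2 - x * z - (N - 2 * x) * (z / (1 + z))) - 1 - x * z

lemma F_nonneg {N z T x0 x : ℝ} (hT : 0 ≤ T) (h0 : 0 ≤ F N z T x0) (h1 : 0 ≤ F N z T (N / 2))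
    (hx0 : x0 ≤ x) (hx1 : x ≤ N / 2) : 0 ≤ F N z T x := by
  have e : ∀ y, F N z T y = -(T * z ^ 2) * y ^ 2 +
      (-(T * z) + 2 * T * (z / (1 + z)) - z) * y + (T - 1 - T * N * (z / (1 + z))) := by
    intro y
    unfold F
    ring
  rw [e] at h0 h1 ⊢
  exact concave_aux (by positivity) h0 h1 hx0 hx1

lemma stars {N m0 : ℕ} {z T : ℝ} (hz : 0 < z) (hT : 0 ≤ T) (hm0 : 2 * m0 ≤ N)
    (h0 : 0 ≤ F N z T m0) (h1 : 0 ≤ F N z T ((N : ℝ) / 2)) :
    (∀ m, m0 ≤ m → 2 * m < N → Star N z T m m) ∧ (∀ m, 2 * m = N → Star N z T m (m - 1)) := by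
  have key : ∀ m : ℕ, m0 ≤ m → 2 * m ≤ N → Star N z T m m := by
    intro m hm hm2
    rw [star_iff]
    have hx0 : (m0 : ℝ) ≤ m := by exact_mod_cast hm
    have hx1 : (m : ℝ) ≤ (N : ℝ) / 2 := by
      have : ((2 * m : ℕ) : ℝ) ≤ N := by exact_mod_cast hm2
      push_cast at this
      linarith
    have := F_nonneg hT h0 h1 hx0 hx1
    unfold F at this
    exact this
  refine ⟨fun m hm hm2 => key m hm hm2.le, fun m hm => ?_⟩
  have h2 := key m (by omega) hm.le
  unfold Pool.Agent.Helper35.PP.Star at h2 ⊢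
  refine le_trans ?_ h2
  have h3 : ((m - 1 : ℕ) : ℝ) ≤ m := by exact_mod_cast Nat.sub_le m 1
  have h4 : 0 ≤ z * T := by positivity
  gcongr

/-- from the star condition to the bound -/
lemma lang {α : Type} [Fintype α] [DecidableEq α] {Λ A B : Finset (α × Bool)}
    (hΛ : ∀ x ∈ Λ, nv x ∈ Λ) (hA : A ⊆ Λ) (hB : B ⊆ Λ) (hdis : Disjoint A B)
    (hmiss : (Λ \ (A ∪ B)).card ≤ 1) {m0 : ℕ} (hmA : m0 ≤ A.card) (hmB : m0 ≤ B.card)
    {z T : ℝ} (hz : 0 < z) (hT : 0 ≤ T) (hm0 : 2 * m0 ≤ Λ.card)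
    (h0 : 0 ≤ F Λ.card z T m0) (h1 : 0 ≤ F Λ.card z T ((Λ.card : ℝ) / 2)) :
    W (ENNReal.ofReal z) (Lang Λ A B) ≤ ENNReal.ofReal T := by
  obtain ⟨h2, h3⟩ := stars hz hT hm0 h0 h1
  exact Lang_le hΛ hA hB hdis hmiss hmA hmB hz hT h2 h3

lemma zz {q : ℝ} (hq : 0 < q) : (1 / q) / (1 + 1 / q) = 1 / (q + 1) := by
  have : 0 < q + 1 := by linarith
  field_simp

lemma F_eq {N q T x : ℝ} (hq : 0 < q) : F N (1 / q) T x =
    (T * ((q + 1) * (q ^ 2 - x * x - x * q) - q ^ 2 * (N - 2 * x)) - (q + x) * q * (q + 1)) /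
      (q ^ 2 * (q + 1)) := by
  unfold F
  rw [zz hq]
  have : 0 < q + 1 := by linarith
  field_simp
  ring

lemma F_nn {N q T x : ℝ} (hq : 0 < q)
    (h : 0 ≤ T * ((q + 1) * (q ^ 2 - x * x - x * q) - q ^ 2 * (N - 2 * x)) -
      (q + x) * q * (q + 1)) : 0 ≤ F N (1 / q) T x := by
  rw [F_eq hq]
  positivity

theorem stmtL : StmtL := by
  intro α _ _ Λ A B hr hΛ hA hB hdis hmiss
  obtain ⟨s, hs, hrs⟩ : ∃ s : ℝ, 0 ≤ s ∧ (Fintype.card α : ℝ) = s + 100 := by
    refine ⟨Fintype.card α - 100, ?_, by ring⟩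
    have : (100 : ℝ) ≤ Fintype.card α := by exact_mod_cast hr
    linarith
  set q : ℝ := 2 * s + 197 with hq
  have hq0 : 0 < q := by rw [hq]; positivity
  have hqr : (2 * (Fintype.card α : ℝ) - 3) = q := by rw [hq, hrs]; ring
  have hz : (0 : ℝ) < 1 / q := by positivity
  rw [hqr]
  have hr0 : (0 : ℝ) ≤ Fintype.card α := Nat.cast_nonneg _
  refine ⟨?_, ?_, ?_, ?_⟩
  · intro hN h1 h2
    have hNr : (Λ.card : ℝ) = q - 1 := by
      rw [hN, Nat.cast_sub (by omega)]
      push_cast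
      linarith
    apply lang hΛ hA hB hdis hmiss (m0 := 1) h1 h2 hz (by positivity) (by omega)
    · apply F_nn hq0
      rw [hNr, hrs, hq]
      push_cast
      ring_nf
      positivity
    · apply F_nn hq0
      rw [hNr, hrs, hq]
      ring_nf
      positivity
  · intro hN h1 h2
    have hNr : (Λ.card : ℝ) = q + 1 := by
      rw [hN, Nat.cast_sub (by omega)]
      push_cast
      linarith
    apply lang hΛ hA hB hdis hmiss (m0 := 1) h1 h2 hz (by positivity) (by omega)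
    · apply F_nn hq0
      rw [hNr, hrs, hq]
      push_cast
      ring_nf
      positivity
    · apply F_nn hq0
      rw [hNr, hrs, hq]
      ring_nf
      positivity
  · intro hN h1 h2
    have hNr : (Λ.card : ℝ) = q + 1 := by
      rw [hN, Nat.cast_sub (by omega)]
      push_cast
      linarith
    apply lang hΛ hA hB hdis hmiss (m0 := 2) h1 h2 hz (by positivity) (by omega)
    · apply F_nn hq0
      rw [hNr, hrs, hq]
      push_cast
      ring_nf
      positivity
    · apply F_nn hq0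
      rw [hNr, hrs, hq]
      ring_nf
      positivity
  · intro hN h1 h2
    have hNr : (Λ.card : ℝ) = q + 3 := by
      rw [hN]
      push_cast
      linarith
    refine lt_of_le_of_lt (lang hΛ hA hB hdis hmiss (m0 := 3) h1 h2 hz
      (T := 4 * Fintype.card α) (by positivity) (by omega) ?_ ?_) ENNReal.ofReal_lt_top
    · apply F_nn hq0
      rw [hNr, hrs, hq]
      push_cast
      ring_nf
      positivity
    · apply F_nn hq0
      rw [hNr, hrs, hq]
      ring_nf
      positivity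

end Pool.Agent.Helper88.PX
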